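import Pool.Agent.W454.PrimNet

/-!
The union of the chain of finite nets: every closed partial isomorphism of a stage extends to an
automorphism of the union, and the automorphism group is primitive on the cells.
-/

set_option autoImplicit false

namespace Pool.Agent.W454.Prim

noncomputable section

/-- The completed net. -/
def mid (N : Net) : Net := plus (Classical.choose_spec (exists_plusData N))

/-- One step of the chain: complete, then glue. -/
def next (N : Net) : Net := star (Classical.choose_spec (exists_starData (mid N)))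

/-- The chain. -/
def chain (N₀ : Net) : ℕ → Net
  | 0 => N₀
  | n + 1 => next (chain N₀ n)

variable {N₀ : Net}

theorem mid_P (N : Net) : N.P ⊆ (mid N).P := fun _ h => Or.inl h

theorem mid_cell {N : Net} {x y z : U} (h : N.cell x y z) : (mid N).cell x y z := Or.inl h

theorem next_P (N : Net) : (mid N).P ⊆ (next N).P := fun _ h => Or.inl h

theorem next_cell {N : Net} {x y z : U} (h : (mid N).cell x y z) : (next N).cell x y z := Or.inl h

theorem chain_P {m n : ℕ} (h : m ≤ n) : (chain N₀ m).P ⊆ (chain N₀ n).P := by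
  induction h with
  | refl => exact subset_rfl
  | step _ ih => exact ih.trans ((mid_P _).trans (next_P _))

theorem chain_cell {m n : ℕ} (h : m ≤ n) {x y z : U} (hc : (chain N₀ m).cell x y z) :
    (chain N₀ n).cell x y z := by
  induction h with
  | refl => exact hc
  | step _ ih => exact next_cell (mid_cell ih)

/-- The points of the union. -/
def T (N₀ : Net) : Set U := {x | ∃ n, x ∈ (chain N₀ n).P}

/-- The cells of the union. -/
def cellT (N₀ : Net) (x y z : U) : Prop := ∃ n, (chain N₀ n).cell x y z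

theorem cellT_mem {x y z : U} (h : cellT N₀ x y z) : x ∈ T N₀ := by
  obtain ⟨n, hn⟩ := h
  exact ⟨n, (chain N₀ n).mem hn⟩

theorem cellT_rot {x y z : U} (h : cellT N₀ x y z) : cellT N₀ y z x := by
  obtain ⟨n, hn⟩ := h
  exact ⟨n, (chain N₀ n).rot hn⟩

theorem cellT_col {x y z : U} (h : cellT N₀ x y z) : y.1 = x.1 + 1 := by
  obtain ⟨n, hn⟩ := h
  exact (chain N₀ n).col hn

theorem cellT_uniq {x y z z' : U} (h : cellT N₀ x y z) (h' : cellT N₀ x y z') : z = z' := by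
  obtain ⟨n, hn⟩ := h
  obtain ⟨m, hm⟩ := h'
  exact (chain N₀ (max n m)).uniq (chain_cell (le_max_left _ _) hn)
    (chain_cell (le_max_right _ _) hm)

theorem cellT_complete {x y : U} (hx : x ∈ T N₀) (hy : y ∈ T N₀) (hc : y.1 = x.1 + 1) :
    ∃ z, cellT N₀ x y z := by
  obtain ⟨n, hn⟩ := hx
  obtain ⟨m, hm⟩ := hy
  have h1 := chain_P (le_max_left n m) hn
  have h2 := chain_P (le_max_right n m) hm
  obtain ⟨z, hz⟩ := plus_complete (Classical.choose_spec (exists_plusData (chain N₀ (max n m))))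
    h1 h2 hc
  exact ⟨z, max n m + 1, next_cell hz⟩

/-- Automorphisms (with colour shift `s`) of the union. -/
structure Auto (N₀ : Net) (s : ZMod 3) (h : Set (U × U)) : Prop where
  dom : ∀ {x x'}, (x, x') ∈ h → x ∈ T N₀
  rng : ∀ {x x'}, (x, x') ∈ h → x' ∈ T N₀
  func : ∀ {x y y'}, (x, y) ∈ h → (x, y') ∈ h → y = y'
  inj : ∀ {x x' y}, (x, y) ∈ h → (x', y) ∈ h → x = x'
  total : ∀ {x}, x ∈ T N₀ → ∃ x', (x, x') ∈ h
  surj : ∀ {x'}, x' ∈ T N₀ → ∃ x, (x, x') ∈ h
  col : ∀ {x x'}, (x, x') ∈ h → x'.1 = x.1 + s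
  fwd : ∀ {x y z x' y' z'}, (x, x') ∈ h → (y, y') ∈ h → (z, z') ∈ h → cellT N₀ x y z →
    cellT N₀ x' y' z'
  bwd : ∀ {x y z x' y' z'}, (x, x') ∈ h → (y, y') ∈ h → (z, z') ∈ h → cellT N₀ x' y' z' →
    cellT N₀ x y z

theorem ext1 {n : ℕ} {s : ZMod 3} {f : Set (U × U)} (h : PI (chain N₀ n) s f) :
    ∃ f', f ⊆ f' ∧ PI (chain N₀ (n + 1)) s f' ∧ ∀ x ∈ (chain N₀ n).P, ∃ y, (x, y) ∈ f' := by
  have h1 := plus_PI (Classical.choose_spec (exists_plusData (chain N₀ n))) h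
  have h2 := star_PI (Classical.choose_spec (exists_starData (mid (chain N₀ n)))) h1
  refine ⟨_, ?_, h2, ?_⟩
  · intro p hp
    exact Or.inl (Or.inl hp)
  · intro x hx
    exact ch_total (mid_P _ hx)

theorem ext2 {n : ℕ} {s : ZMod 3} {f : Set (U × U)} (h : PI (chain N₀ n) s f) :
    ∃ f', f ⊆ f' ∧ PI (chain N₀ (n + 2)) s f' ∧ (∀ x ∈ (chain N₀ n).P, ∃ y, (x, y) ∈ f') ∧
      ∀ y ∈ (chain N₀ n).P, ∃ x, (x, y) ∈ f' := by
  obtain ⟨f1, h1, h2, h3⟩ := ext1 h
  obtain ⟨f2, h4, h5, h6⟩ := ext1 h2.symm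
  refine ⟨flip f2, ?_, ?_, ?_, ?_⟩
  · intro p hp
    exact h4 (h1 hp)
  · have := h5.symm
    rw [neg_neg] at this
    exact this
  · intro x hx
    obtain ⟨y, hy⟩ := h3 x hx
    exact ⟨y, h4 hy⟩
  · intro y hy
    obtain ⟨x, hx⟩ := h6 y (chain_P (Nat.le_succ n) hy)
    exact ⟨x, hx⟩

/-- The sequence of extensions of a closed partial isomorphism. -/
def seq {n : ℕ} {s : ZMod 3} {f : Set (U × U)} (h : PI (chain N₀ n) s f) :
    (k : ℕ) → {f : Set (U × U) // PI (chain N₀ (n + 2 * k)) s f}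
  | 0 => ⟨f, h⟩
  | k + 1 => ⟨Classical.choose (ext2 (seq h k).2), (Classical.choose_spec (ext2 (seq h k).2)).2.1⟩

theorem seq_mono {n : ℕ} {s : ZMod 3} {f : Set (U × U)} (h : PI (chain N₀ n) s f) {k l : ℕ}
    (hkl : k ≤ l) : (seq h k).1 ⊆ (seq h l).1 := by
  induction hkl with
  | refl => exact subset_rfl
  | @step m _ ih => exact ih.trans (Classical.choose_spec (ext2 (seq h m).2)).1

theorem seq_dom {n : ℕ} {s : ZMod 3} {f : Set (U × U)} (h : PI (chain N₀ n) s f) (k : ℕ) (x : U)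
    (hx : x ∈ (chain N₀ (n + 2 * k)).P) : ∃ y, (x, y) ∈ (seq h (k + 1)).1 :=
  (Classical.choose_spec (ext2 (seq h k).2)).2.2.1 x hx

theorem seq_rng {n : ℕ} {s : ZMod 3} {f : Set (U × U)} (h : PI (chain N₀ n) s f) (k : ℕ) (x : U)
    (hx : x ∈ (chain N₀ (n + 2 * k)).P) : ∃ y, (y, x) ∈ (seq h (k + 1)).1 :=
  (Classical.choose_spec (ext2 (seq h k).2)).2.2.2 x hx

/-- Every closed partial isomorphism of a stage extends to an automorphism of the union. -/
theorem exists_auto {n : ℕ} {s : ZMod 3} {f : Set (U × U)} (h : PI (chain N₀ n) s f) :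
    ∃ g, f ⊆ g ∧ Auto N₀ s g := by
  refine ⟨{p | ∃ k, p ∈ (seq h k).1}, fun p hp => ⟨0, hp⟩, ?_⟩
  have common : ∀ {p q : U × U}, (∃ k, p ∈ (seq h k).1) → (∃ k, q ∈ (seq h k).1) →
      ∃ k, p ∈ (seq h k).1 ∧ q ∈ (seq h k).1 := by
    rintro p q ⟨k, hk⟩ ⟨l, hl⟩
    exact ⟨max k l, seq_mono h (le_max_left _ _) hk, seq_mono h (le_max_right _ _) hl⟩
  refine ⟨?_, ?_, ?_, ?_, ?_, ?_, ?_, ?_, ?_⟩
  · rintro x x' ⟨k, hk⟩
    exact ⟨_, (seq h k).2.dom hk⟩
  · rintro x x' ⟨k, hk⟩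
    exact ⟨_, (seq h k).2.rng hk⟩
  · intro x y y' h1 h2
    obtain ⟨k, h3, h4⟩ := common h1 h2
    exact (seq h k).2.func h3 h4
  · intro x x' y h1 h2
    obtain ⟨k, h3, h4⟩ := common h1 h2
    exact (seq h k).2.inj h3 h4
  · rintro x ⟨m, hm⟩
    obtain ⟨y, hy⟩ := seq_dom h m x (chain_P (by omega) hm)
    exact ⟨y, _, hy⟩
  · rintro x ⟨m, hm⟩
    obtain ⟨y, hy⟩ := seq_rng h m x (chain_P (by omega) hm)
    exact ⟨y, _, hy⟩
  · rintro x x' ⟨k, hk⟩
    exact (seq h k).2.col hk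
  · rintro x y z x' y' z' hx hy hz ⟨m, hm⟩
    obtain ⟨k, h1, h2⟩ := common hx hy
    obtain ⟨l, hl⟩ := hz
    let t := max (max k l) m
    have g1 := seq_mono h (show k ≤ t by simp [t]) h1
    have g2 := seq_mono h (show k ≤ t by simp [t]) h2
    have g3 := seq_mono h (show l ≤ t by simp [t]) hl
    have hc := chain_cell (show m ≤ n + 2 * t by
      have : m ≤ t := le_max_right _ _
      omega) hm
    obtain ⟨w, hw, hc'⟩ := (seq h t).2.fwd g1 g2 hc
    rw [(seq h t).2.func g3 hw]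
    exact ⟨_, hc'⟩
  · rintro x y z x' y' z' hx hy hz ⟨m, hm⟩
    obtain ⟨k, h1, h2⟩ := common hx hy
    obtain ⟨l, hl⟩ := hz
    let t := max (max k l) m
    have g1 := seq_mono h (show k ≤ t by simp [t]) h1
    have g2 := seq_mono h (show k ≤ t by simp [t]) h2
    have g3 := seq_mono h (show l ≤ t by simp [t]) hl
    have hc := chain_cell (show m ≤ n + 2 * t by
      have : m ≤ t := le_max_right _ _
      omega) hm
    obtain ⟨w, hw, hc'⟩ := (seq h t).2.bwd g1 g2 hc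
    rw [(seq h t).2.inj g3 hw]
    exact ⟨_, hc'⟩

/-- Every closed partial isomorphism of a completed stage extends to an automorphism of the union,
and the extension maps the other points of the completed stage to new points. -/
theorem exists_auto_mid {n : ℕ} {s : ZMod 3} {f : Set (U × U)} (h : PI (mid (chain N₀ n)) s f) :
    ∃ g, f ⊆ g ∧ Auto N₀ s g ∧
      ch (mid (chain N₀ n)) (Classical.choose (exists_starData (mid (chain N₀ n)))) s f ⊆ g := by
  have h2 : PI (chain N₀ (n + 1)) s _ :=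
    star_PI (Classical.choose_spec (exists_starData (mid (chain N₀ n)))) h
  obtain ⟨g, h3, h4⟩ := exists_auto h2
  exact ⟨g, fun p hp => h3 (Or.inl hp), h4, h3⟩

/-! ### Cells -/

theorem ne_of_col {x y : U} (h : y.1 = x.1 + 1) : x ≠ y := by
  rintro rfl
  have : ∀ a : ZMod 3, a ≠ a + 1 := by decide
  exact this _ h

/-- The partial isomorphism between two cells. -/
theorem sing_PI {N : Net} {x y z x' y' z' : U} (h : N.cell x y z) (h' : N.cell x' y' z') :
    PI N (x'.1 - x.1) {(x, x'), (y, y'), (z, z')} := by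
  have c1 := N.col h
  have c2 := N.col (N.rot h)
  have c3 := N.col (N.rot (N.rot h))
  have d1 := N.col h'
  have d2 := N.col (N.rot h')
  have d3 := N.col (N.rot (N.rot h'))
  have key : ∀ {x y z x' y' z' : U}, N.cell x y z → N.cell x' y' z' →
      ∀ {a b c a' b' : U}, (a, a') ∈ ({(x, x'), (y, y'), (z, z')} : Set (U × U)) →
      (b, b') ∈ ({(x, x'), (y, y'), (z, z')} : Set (U × U)) → N.cell a b c →
      ∃ c', (c, c') ∈ ({(x, x'), (y, y'), (z, z')} : Set (U × U)) ∧ N.cell a' b' c' := by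
    intro x y z x' y' z' h h' a b c a' b' ha hb hc
    have c1 := N.col h
    have c2 := N.col (N.rot h)
    have c3 := N.col (N.rot (N.rot h))
    have hcol := N.col hc
    have no : ∀ t : ZMod 3, t ≠ t + 1 := by decide
    have no2 : ∀ t : ZMod 3, t ≠ t + 1 + 1 := by decide
    simp only [Set.mem_insert_iff, Set.mem_singleton_iff, Prod.mk.injEq] at ha hb ⊢
    rcases ha with ⟨rfl, rfl⟩ | ⟨rfl, rfl⟩ | ⟨rfl, rfl⟩ <;>
    rcases hb with ⟨rfl, rfl⟩ | ⟨rfl, rfl⟩ | ⟨rfl, rfl⟩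
    · exact absurd hcol (no _)
    · exact ⟨z', by simp [N.uniq hc h], h'⟩
    · exfalso
      rw [hcol] at c3
      exact no2 _ c3
    · exfalso
      rw [hcol] at c1
      exact no2 _ c1
    · exact absurd hcol (no _)
    · exact ⟨x', by simp [N.uniq hc (N.rot h)], N.rot h'⟩
    · exact ⟨y', by simp [N.uniq hc (N.rot (N.rot h))], N.rot (N.rot h')⟩
    · exfalso
      rw [hcol] at c2
      exact no2 _ c2
    · exact absurd hcol (no _)
  have xy : x ≠ y := ne_of_col c1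
  have yz : y ≠ z := ne_of_col c2
  have zx : z ≠ x := ne_of_col c3
  have xy' : x' ≠ y' := ne_of_col d1
  have yz' : y' ≠ z' := ne_of_col d2
  have zx' : z' ≠ x' := ne_of_col d3
  refine ⟨?_, ?_, ?_, ?_, ?_, ?_, ?_⟩
  · intro a a' ha
    simp only [Set.mem_insert_iff, Set.mem_singleton_iff, Prod.mk.injEq] at ha
    rcases ha with ⟨rfl, rfl⟩ | ⟨rfl, rfl⟩ | ⟨rfl, rfl⟩
    · exact N.mem h
    · exact N.mem2 h
    · exact N.mem3 h
  · intro a a' ha
    simp only [Set.mem_insert_iff, Set.mem_singleton_iff, Prod.mk.injEq] at ha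
    rcases ha with ⟨rfl, rfl⟩ | ⟨rfl, rfl⟩ | ⟨rfl, rfl⟩
    · exact N.mem h'
    · exact N.mem2 h'
    · exact N.mem3 h'
  · intro a a' a'' ha ha'
    simp only [Set.mem_insert_iff, Set.mem_singleton_iff, Prod.mk.injEq] at ha ha'
    rcases ha with ⟨rfl, rfl⟩ | ⟨rfl, rfl⟩ | ⟨rfl, rfl⟩ <;>
    rcases ha' with ⟨e, rfl⟩ | ⟨e, rfl⟩ | ⟨e, rfl⟩ <;> first | rfl | (exfalso; tauto)
  · intro a a' a'' ha ha'
    simp only [Set.mem_insert_iff, Set.mem_singleton_iff, Prod.mk.injEq] at ha ha'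
    rcases ha with ⟨rfl, rfl⟩ | ⟨rfl, rfl⟩ | ⟨rfl, rfl⟩ <;>
    rcases ha' with ⟨rfl, e⟩ | ⟨rfl, e⟩ | ⟨rfl, e⟩ <;> first | rfl | (exfalso; tauto)
  · intro a a' ha
    simp only [Set.mem_insert_iff, Set.mem_singleton_iff, Prod.mk.injEq] at ha
    rcases ha with ⟨rfl, rfl⟩ | ⟨rfl, rfl⟩ | ⟨rfl, rfl⟩
    · ring
    · rw [d1, c1]; ring
    · rw [d2, d1, c2, c1]; ring
  · intro a b c a' b' ha hb hc
    exact key h h' ha hb hc
  · intro a b a' b' c' ha hb hc
    have ha' : (a', a) ∈ ({(x', x), (y', y), (z', z)} : Set (U × U)) := by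
      simp only [Set.mem_insert_iff, Set.mem_singleton_iff, Prod.mk.injEq] at ha ⊢
      tauto
    have hb' : (b', b) ∈ ({(x', x), (y', y), (z', z)} : Set (U × U)) := by
      simp only [Set.mem_insert_iff, Set.mem_singleton_iff, Prod.mk.injEq] at hb ⊢
      tauto
    obtain ⟨c, h1, h2⟩ := key h' h ha' hb' hc
    refine ⟨c, ?_, h2⟩
    simp only [Set.mem_insert_iff, Set.mem_singleton_iff, Prod.mk.injEq] at h1 ⊢
    tauto

/-- The union of two closed partial isomorphisms without cross cells. -/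
theorem union_PI {N : Net} {s : ZMod 3} {f g : Set (U × U)} (hf : PI N s f) (hg : PI N s g)
    (h : ∀ x x' y y', (x, x') ∈ f → (y, y') ∈ g → x ≠ y ∧ x' ≠ y' ∧
      ∀ r, ¬ N.cell x y r ∧ ¬ N.cell y x r ∧ ¬ N.cell x' y' r ∧ ¬ N.cell y' x' r) :
    PI N s (f ∪ g) where
  dom := by
    rintro x x' (hx | hx)
    · exact hf.dom hx
    · exact hg.dom hx
  rng := by
    rintro x x' (hx | hx)
    · exact hf.rng hx
    · exact hg.rng hx
  func := by
    rintro x y y' (h1 | h1) (h2 | h2)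
    · exact hf.func h1 h2
    · exact absurd rfl (h _ _ _ _ h1 h2).1
    · exact absurd rfl (h _ _ _ _ h2 h1).1
    · exact hg.func h1 h2
  inj := by
    rintro x x' y (h1 | h1) (h2 | h2)
    · exact hf.inj h1 h2
    · exact absurd rfl (h _ _ _ _ h1 h2).2.1
    · exact absurd rfl (h _ _ _ _ h2 h1).2.1
    · exact hg.inj h1 h2
  col := by
    rintro x x' (hx | hx)
    · exact hf.col hx
    · exact hg.col hx
  fwd := by
    rintro x y z x' y' (h1 | h1) (h2 | h2) hc
    · obtain ⟨z', h3, h4⟩ := hf.fwd h1 h2 hc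
      exact ⟨z', Or.inl h3, h4⟩
    · exact absurd hc ((h _ _ _ _ h1 h2).2.2 z).1
    · exact absurd hc ((h _ _ _ _ h2 h1).2.2 z).2.1
    · obtain ⟨z', h3, h4⟩ := hg.fwd h1 h2 hc
      exact ⟨z', Or.inr h3, h4⟩
  bwd := by
    rintro x y x' y' z' (h1 | h1) (h2 | h2) hc
    · obtain ⟨z, h3, h4⟩ := hf.bwd h1 h2 hc
      exact ⟨z, Or.inl h3, h4⟩
    · exact absurd hc ((h _ _ _ _ h1 h2).2.2 z').2.2.1
    · exact absurd hc ((h _ _ _ _ h2 h1).2.2 z').2.2.2
    · obtain ⟨z, h3, h4⟩ := hg.bwd h1 h2 hc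
      exact ⟨z, Or.inr h3, h4⟩

/-- Two cells without cross cells. -/
def Free (N : Net) (x y z a b c : U) : Prop :=
  N.cell x y z ∧ N.cell a b c ∧ ∀ p ∈ ({x, y, z} : Set U), ∀ q ∈ ({a, b, c} : Set U), p ≠ q ∧
    ∀ r, ¬ N.cell p q r ∧ ¬ N.cell q p r

theorem pair_PI {N : Net} {x y z a b c x' y' z' a' b' c' : U} (h : Free N x y z a b c)
    (h' : Free N x' y' z' a' b' c') (e : x.1 = a.1) (e' : x'.1 = a'.1) :
    PI N (x'.1 - x.1) ({(x, x'), (y, y'), (z, z')} ∪ {(a, a'), (b, b'), (c, c')}) := by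
  have h1 := sing_PI h.1 h'.1
  have h2 := sing_PI h.2.1 h'.2.1
  rw [← e, ← e'] at h2
  refine union_PI h1 h2 ?_
  intro p p' q q' hp hq
  have m1 : p ∈ ({x, y, z} : Set U) := by
    simp only [Set.mem_insert_iff, Set.mem_singleton_iff, Prod.mk.injEq] at hp ⊢
    tauto
  have m2 : q ∈ ({a, b, c} : Set U) := by
    simp only [Set.mem_insert_iff, Set.mem_singleton_iff, Prod.mk.injEq] at hq ⊢
    tauto
  have m3 : p' ∈ ({x', y', z'} : Set U) := by
    simp only [Set.mem_insert_iff, Set.mem_singleton_iff, Prod.mk.injEq] at hp ⊢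
    tauto
  have m4 : q' ∈ ({a', b', c'} : Set U) := by
    simp only [Set.mem_insert_iff, Set.mem_singleton_iff, Prod.mk.injEq] at hq ⊢
    tauto
  have k1 := h.2.2 p m1 q m2
  have k2 := h'.2.2 p' m3 q' m4
  exact ⟨k1.1, k2.1, fun r => ⟨(k1.2 r).1, (k1.2 r).2, (k2.2 r).1, (k2.2 r).2⟩⟩

/-- The copy of a cell in a new chart is free from an old cell that misses the range. -/
theorem free_star {M : Net} {j : ZMod 3 × Set (U × U) × U → U} (hj : StarData M j) {s : ZMod 3}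
    {f : Set (U × U)} (hf : PI M s f) {x y z a b c : U} (h : M.cell x y z) (h' : M.cell a b c)
    (h1 : ∀ p ∈ ({x, y, z} : Set U), ∀ w, (w, p) ∉ f)
    (h2 : ∀ q ∈ ({a, b, c} : Set U), ∀ w, (q, w) ∉ f) :
    Free (star hj) x y z (j (s, f, a)) (j (s, f, b)) (j (s, f, c)) := by
  have ca : (a, j (s, f, a)) ∈ ch M j s f := Or.inr ⟨M.mem h', h2 a (by simp), rfl⟩
  have cb : (b, j (s, f, b)) ∈ ch M j s f := Or.inr ⟨M.mem2 h', h2 b (by simp), rfl⟩
  have cc : (c, j (s, f, c)) ∈ ch M j s f := Or.inr ⟨M.mem3 h', h2 c (by simp), rfl⟩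
  refine ⟨Or.inl h, Or.inr ⟨s, f, hf, a, b, c, h', ca, cb, cc⟩, ?_⟩
  intro p hp q hq
  have hpM : p ∈ M.P := by
    simp only [Set.mem_insert_iff, Set.mem_singleton_iff] at hp
    rcases hp with rfl | rfl | rfl
    · exact M.mem h
    · exact M.mem2 h
    · exact M.mem3 h
  have hq' : ∃ d, (d, q) ∈ ch M j s f ∧ q ∉ M.P := by
    simp only [Set.mem_insert_iff, Set.mem_singleton_iff] at hq
    rcases hq with rfl | rfl | rfl
    · exact ⟨a, ca, hj.fresh _⟩
    · exact ⟨b, cb, hj.fresh _⟩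
    · exact ⟨c, cc, hj.fresh _⟩
  obtain ⟨d, hd, hqM⟩ := hq'
  refine ⟨fun e => hqM (e ▸ hpM), fun r => ⟨fun hc => ?_, fun hc => ?_⟩⟩
  · obtain ⟨w, hw⟩ := star_cross hj hf hpM hqM hd r (Or.inl hc)
    exact h1 p hp w hw
  · obtain ⟨w, hw⟩ := star_cross hj hf hpM hqM hd r (Or.inr hc)
    exact h1 p hp w hw

theorem empty_PI (N : Net) (s : ZMod 3) : PI N s ∅ := by
  refine ⟨?_, ?_, ?_, ?_, ?_, ?_, ?_⟩ <;> simp

/-- The hypotheses on a relation between the cells that is invariant under all automorphisms. -/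
structure InvRel (N₀ : Net) (E : U × U × U → U × U × U → Prop) : Prop where
  symm : ∀ {t t'}, E t t' → E t' t
  trans : ∀ {t t' t''}, E t t' → E t' t'' → E t t''
  rot : ∀ {x y z}, cellT N₀ x y z → E (x, y, z) (y, z, x)
  inv : ∀ {s h}, Auto N₀ s h → ∀ {x y z a b c x' y' z' a' b' c' : U}, (x, x') ∈ h → (y, y') ∈ h →
    (z, z') ∈ h → (a, a') ∈ h → (b, b') ∈ h → (c, c') ∈ h → cellT N₀ x y z → cellT N₀ a b c →
    E (x, y, z) (a, b, c) → E (x', y', z') (a', b', c')

theorem no1 (t : ZMod 3) : t ≠ t + 1 := by revert t; decide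
theorem no2 (t : ZMod 3) : t ≠ t + 1 + 1 := by revert t; decide

section step

variable {E : U × U × U → U × U × U → Prop} (hE : InvRel N₀ E)

include hE

/-- First step: from an adjacent pair to a disjoint pair. -/
theorem step1 {x y z b c : U} (h : cellT N₀ x y z) (h' : cellT N₀ x b c) (hy : y ≠ b)
    (hz : z ≠ c) (he : E (x, y, z) (x, b, c)) :
    ∃ a₁ b₁ c₁ a₂ b₂ c₂, cellT N₀ a₁ b₁ c₁ ∧ cellT N₀ a₂ b₂ c₂ ∧ a₁.1 = a₂.1 ∧ a₁ ≠ a₂ ∧
      b₁ ≠ b₂ ∧ c₁ ≠ c₂ ∧ E (a₁, b₁, c₁) (a₂, b₂, c₂) := by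
  obtain ⟨n₁, hn₁⟩ := h
  obtain ⟨n₂, hn₂⟩ := h'
  have k1 := mid_cell (chain_cell (le_max_left n₁ n₂) hn₁)
  have k2 := mid_cell (chain_cell (le_max_right n₁ n₂) hn₂)
  set M := mid (chain N₀ (max n₁ n₂)) with hM
  have hf := sing_PI k1 (M.rot k1)
  obtain ⟨g, hg1, hg2, hg3⟩ := exists_auto_mid hf
  set j := Classical.choose (exists_starData (mid (chain N₀ (max n₁ n₂)))) with hj
  have hjs : StarData M j := Classical.choose_spec (exists_starData M)
  have e1 := M.col k1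
  have e2 := M.col (M.rot k1)
  have e3 := M.col (M.rot (M.rot k1))
  have e4 := M.col k2
  have e5 := M.col (M.rot k2)
  have e6 := M.col (M.rot (M.rot k2))
  set f : Set (U × U) := {(x, y), (y, z), (z, x)} with hfdef
  have hb : ∀ w, (b, w) ∉ f := by
    intro w hw
    simp only [hfdef, Set.mem_insert_iff, Set.mem_singleton_iff, Prod.mk.injEq] at hw
    rcases hw with ⟨rfl, _⟩ | ⟨rfl, _⟩ | ⟨rfl, _⟩
    · exact no1 _ e4
    · exact hy rfl
    · rw [e2, e1] at e4
      exact no1 (x.1 + 1) e4.symm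
  have hc : ∀ w, (c, w) ∉ f := by
    intro w hw
    simp only [hfdef, Set.mem_insert_iff, Set.mem_singleton_iff, Prod.mk.injEq] at hw
    rcases hw with ⟨rfl, _⟩ | ⟨rfl, _⟩ | ⟨rfl, _⟩
    · exact no1 _ e6
    · rw [e1, e4] at e5
      exact no1 _ e5
    · exact hz rfl
  have cb : (b, j (y.1 - x.1, f, b)) ∈ ch M j (y.1 - x.1) f := Or.inr ⟨M.mem2 k2, hb, rfl⟩
  have cc : (c, j (y.1 - x.1, f, c)) ∈ ch M j (y.1 - x.1) f := Or.inr ⟨M.mem3 k2, hc, rfl⟩
  set b' := j (y.1 - x.1, f, b) with hb'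
  set c' := j (y.1 - x.1, f, c) with hc'
  have hb'M : b' ∉ M.P := hjs.fresh _
  have hc'M : c' ∉ M.P := hjs.fresh _
  have gx : (x, y) ∈ g := hg1 (by simp [hfdef])
  have gy : (y, z) ∈ g := hg1 (by simp [hfdef])
  have gz : (z, x) ∈ g := hg1 (by simp [hfdef])
  have gb : (b, b') ∈ g := hg3 cb
  have gc : (c, c') ∈ g := hg3 cc
  have H : cellT N₀ x y z := ⟨_, hn₁⟩
  have H' : cellT N₀ x b c := ⟨_, hn₂⟩
  have E1 := hE.inv hg2 gx gy gz gx gb gc H H' he
  have H'' : cellT N₀ y b' c' := hg2.fwd gx gb gc H'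
  have E2 : E (x, b, c) (y, b', c') := hE.trans (hE.symm he) (hE.trans (hE.rot H) E1)
  have E3 : E (x, b, c) (c', y, b') :=
    hE.trans E2 (hE.trans (hE.rot H'') (hE.rot (cellT_rot H'')))
  refine ⟨x, b, c, c', y, b', H', cellT_rot (cellT_rot H''), ?_, ?_, ?_, ?_, E3⟩
  · have := cellT_col (cellT_rot (cellT_rot H''))
    have h2 := hg2.col gc
    rw [h2, e5, e4, e1]; ring_nf
    have : ∀ t : ZMod 3, t = 3 + t := by decide
    exact this _
  · intro e
    exact hc'M (e ▸ M.mem k1)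
  · exact hy.symm
  · intro e
    exact hb'M (e ▸ M.mem3 k2)

/-- Second and third step: from one disjoint pair to all pairs of cells. -/
theorem step23 {x y z a b c : U} (h : cellT N₀ x y z) (h' : cellT N₀ a b c) (hxa : x.1 = a.1)
    (hx : x ≠ a) (hy : y ≠ b) (hz : z ≠ c) (he : E (x, y, z) (a, b, c))
    {u v w u' v' w' : U} (k : cellT N₀ u v w) (k' : cellT N₀ u' v' w') (hu : u.1 = u'.1) :
    E (u, v, w) (u', v', w') := by
  obtain ⟨n₁, hn₁⟩ := h
  obtain ⟨n₂, hn₂⟩ := h'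
  obtain ⟨n₃, hn₃⟩ := k
  obtain ⟨n₄, hn₄⟩ := k'
  set n := max (max n₁ n₂) (max n₃ n₄) with hn
  have k1 := mid_cell (chain_cell (show n₁ ≤ n by simp [hn]) hn₁)
  have k2 := mid_cell (chain_cell (show n₂ ≤ n by simp [hn]) hn₂)
  have k3 := mid_cell (chain_cell (show n₃ ≤ n by simp [hn]) hn₃)
  have k4 := mid_cell (chain_cell (show n₄ ≤ n by simp [hn]) hn₄)
  set M := mid (chain N₀ n) with hM
  have hf := sing_PI k1 k1
  obtain ⟨g, hg1, hg2, hg3⟩ := exists_auto_mid hf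
  set j := Classical.choose (exists_starData (mid (chain N₀ n))) with hj
  have hjs : StarData M j := Classical.choose_spec (exists_starData M)
  have e1 := M.col k1
  have e2 := M.col (M.rot k1)
  have e3 := M.col (M.rot (M.rot k1))
  have e4 := M.col k2
  have e5 := M.col (M.rot k2)
  have e6 := M.col (M.rot (M.rot k2))
  set f : Set (U × U) := {(x, x), (y, y), (z, z)} with hfdef
  set s : ZMod 3 := x.1 - x.1 with hs
  have nc : ∀ p q : U, q.1 = p.1 + 1 → p ≠ q := by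
    rintro p q h rfl
    exact no1 _ h
  have nc2 : ∀ p q : U, q.1 = p.1 + 1 + 1 → p ≠ q := by
    rintro p q h rfl
    exact no2 _ h
  have xb : x ≠ b := nc x b (by rw [e4, hxa])
  have xc : x ≠ c := nc2 x c (by rw [e5, e4, hxa])
  have ya : y ≠ a := (nc a y (by rw [e1, hxa])).symm
  have yc : y ≠ c := nc y c (by rw [e5, e4, e1, hxa])
  have za : z ≠ a := (nc2 a z (by rw [e2, e1, hxa])).symm
  have zb : z ≠ b := (nc b z (by rw [e2, e1, e4, hxa])).symm
  have miss : ∀ q ∈ ({a, b, c} : Set U), ∀ w, (q, w) ∉ f := by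
    intro q hq w hw
    simp only [hfdef, Set.mem_insert_iff, Set.mem_singleton_iff, Prod.mk.injEq] at hw hq
    rcases hq with rfl | rfl | rfl <;> rcases hw with ⟨rfl, _⟩ | ⟨rfl, _⟩ | ⟨rfl, _⟩ <;>
      first | exact hx rfl | exact hy rfl | exact hz rfl | exact xb rfl | exact xc rfl |
        exact ya rfl | exact yc rfl | exact za rfl | exact zb rfl
  have miss' : ∀ q ∈ ({a, b, c} : Set U), ∀ w, (w, q) ∉ f := by
    intro q hq w hw
    simp only [hfdef, Set.mem_insert_iff, Set.mem_singleton_iff, Prod.mk.injEq] at hw hq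
    rcases hq with rfl | rfl | rfl <;> rcases hw with ⟨_, rfl⟩ | ⟨_, rfl⟩ | ⟨_, rfl⟩ <;>
      first | exact hx rfl | exact hy rfl | exact hz rfl | exact xb rfl | exact xc rfl |
        exact ya rfl | exact yc rfl | exact za rfl | exact zb rfl
  have F1 : Free (star hjs) a b c (j (s, f, a)) (j (s, f, b)) (j (s, f, c)) :=
    free_star hjs hf k2 k2 miss' miss
  have ca : (a, j (s, f, a)) ∈ ch M j s f := Or.inr ⟨M.mem k2, miss a (by simp), rfl⟩
  have cb : (b, j (s, f, b)) ∈ ch M j s f := Or.inr ⟨M.mem2 k2, miss b (by simp), rfl⟩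
  have cc : (c, j (s, f, c)) ∈ ch M j s f := Or.inr ⟨M.mem3 k2, miss c (by simp), rfl⟩
  set a' := j (s, f, a) with ha'
  set b' := j (s, f, b) with hb'
  set c' := j (s, f, c) with hc'
  have gx : (x, x) ∈ g := hg1 (by simp [hfdef])
  have gy : (y, y) ∈ g := hg1 (by simp [hfdef])
  have gz : (z, z) ∈ g := hg1 (by simp [hfdef])
  have ga : (a, a') ∈ g := hg3 ca
  have gb : (b, b') ∈ g := hg3 cb
  have gc : (c, c') ∈ g := hg3 cc
  have H : cellT N₀ x y z := ⟨_, hn₁⟩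
  have H' : cellT N₀ a b c := ⟨_, hn₂⟩
  have H3 : cellT N₀ a' b' c' := hg2.fwd ga gb gc H'
  have E1 := hE.inv hg2 gx gy gz ga gb gc H H' he
  have E2 : E (a, b, c) (a', b', c') := hE.trans (hE.symm he) E1
  have aa' : a.1 = a'.1 := by
    have := hg2.col ga
    rw [this, hs]; simp
  -- copies along the empty partial isomorphism
  have h0 := empty_PI M 0
  have F2 : Free (star hjs) u v w (j (0, ∅, u)) (j (0, ∅, v)) (j (0, ∅, w)) :=
    free_star hjs h0 k3 k3 (by simp) (by simp)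
  have F3 : Free (star hjs) u' v' w' (j (0, ∅, u)) (j (0, ∅, v)) (j (0, ∅, w)) :=
    free_star hjs h0 k4 k3 (by simp) (by simp)
  have cu : u.1 = (j (0, ∅, u)).1 := by
    have := ch_col hjs h0 (show (u, j (0, ∅, u)) ∈ ch M j 0 ∅ from
      Or.inr ⟨M.mem k3, by simp, rfl⟩)
    rw [this]; simp
  have H4 : cellT N₀ (j (0, ∅, u)) (j (0, ∅, v)) (j (0, ∅, w)) := ⟨n + 1, F2.2.1⟩
  have go : ∀ {p q r : U}, Free (star hjs) p q r (j (0, ∅, u)) (j (0, ∅, v)) (j (0, ∅, w)) →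
      p.1 = (j (0, ∅, u)).1 → E (p, q, r) (j (0, ∅, u), j (0, ∅, v), j (0, ∅, w)) := by
    intro p q r F hp
    have hPI : PI (chain N₀ (n + 1)) _ _ := pair_PI F1 F aa' hp
    obtain ⟨g', hg'1, hg'2⟩ := exists_auto hPI
    exact hE.inv hg'2 (hg'1 (by simp)) (hg'1 (by simp)) (hg'1 (by simp)) (hg'1 (by simp))
      (hg'1 (by simp)) (hg'1 (by simp)) H' H3 E2
  exact hE.trans (go F2 cu) (hE.symm (go F3 (hu ▸ cu)))

/-- An invariant relation that relates two different cells relates all cells. -/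
theorem primitive {x y z a b c : U} (h : cellT N₀ x y z) (h' : cellT N₀ a b c) (hxa : x.1 = a.1)
    (hne : (x, y, z) ≠ (a, b, c)) (he : E (x, y, z) (a, b, c))
    {u v w u' v' w' : U} (k : cellT N₀ u v w) (k' : cellT N₀ u' v' w') (hu : u.1 = u'.1) :
    E (u, v, w) (u', v', w') := by
  have fin : ∀ {y z b c x : U}, cellT N₀ x y z → cellT N₀ x b c → y ≠ b → z ≠ c →
      E (x, y, z) (x, b, c) → E (u, v, w) (u', v', w') := by
    intro y z b c x h h' hy hz he
    obtain ⟨a₁, b₁, c₁, a₂, b₂, c₂, g1, g2, g3, g4, g5, g6, g7⟩ := step1 hE h h' hy hz he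
    exact step23 hE g1 g2 g3 g4 g5 g6 g7 k k' hu
  by_cases hx : x = a
  · subst hx
    have hy : y ≠ b := by
      rintro rfl
      exact hne (by rw [cellT_uniq h h'])
    have hz : z ≠ c := by
      rintro rfl
      exact hne (by rw [cellT_uniq (cellT_rot (cellT_rot h)) (cellT_rot (cellT_rot h'))])
    exact fin h h' hy hz he
  · by_cases hy : y = b
    · subst hy
      have hz : z ≠ c := by
        rintro rfl
        exact hx (cellT_uniq (cellT_rot h) (cellT_rot h'))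
      exact fin (cellT_rot h) (cellT_rot h') hz hx
        (hE.trans (hE.symm (hE.rot h)) (hE.trans he (hE.rot h')))
    · by_cases hz : z = c
      · subst hz
        exact fin (cellT_rot (cellT_rot h)) (cellT_rot (cellT_rot h')) hx hy
          (hE.trans (hE.rot (cellT_rot (cellT_rot h))) (hE.trans he
            (hE.symm (hE.rot (cellT_rot (cellT_rot h'))))))
      · exact step23 hE h h' hxa hx hy hz he k k' hu

end step

/-- The automorphisms are transitive on the cells. -/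
theorem transitive {x y z x' y' z' : U} (h : cellT N₀ x y z) (h' : cellT N₀ x' y' z') :
    ∃ s g, Auto N₀ s g ∧ (x, x') ∈ g ∧ (y, y') ∈ g ∧ (z, z') ∈ g := by
  obtain ⟨n₁, hn₁⟩ := h
  obtain ⟨n₂, hn₂⟩ := h'
  have hf := sing_PI (chain_cell (le_max_left n₁ n₂) hn₁) (chain_cell (le_max_right n₁ n₂) hn₂)
  obtain ⟨g, hg1, hg2⟩ := exists_auto hf
  exact ⟨_, g, hg2, hg1 (by simp), hg1 (by simp), hg1 (by simp)⟩

/-- Each colour class of the union is infinite if the base net has a point of this colour. -/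
theorem infinite_color {u : U} (hu : u ∈ T N₀) : {x | x ∈ T N₀ ∧ x.1 = u.1}.Infinite := by
  intro hfin
  obtain ⟨m, hm⟩ := hu
  -- a stage that contains all points
  have : ∃ n, ∀ x ∈ {x | x ∈ T N₀ ∧ x.1 = u.1}, x ∈ (chain N₀ n).P := by
    have key : ∀ S : Set U, S.Finite → (∀ x ∈ S, x ∈ T N₀) → ∃ n, ∀ x ∈ S, x ∈ (chain N₀ n).P := by
      intro S hS
      induction S, hS using Set.Finite.induction_on with
      | empty => intro _; exact ⟨0, by simp⟩
      | @insert a S _ _ ih =>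
        intro hT
        obtain ⟨n, hn⟩ := ih (fun x hx => hT x (Set.mem_insert_of_mem _ hx))
        obtain ⟨m, hm⟩ := hT a (Set.mem_insert _ _)
        refine ⟨max n m, ?_⟩
        rintro x (rfl | hx)
        · exact chain_P (le_max_right _ _) hm
        · exact chain_P (le_max_left _ _) (hn x hx)
    exact key _ hfin (fun x hx => hx.1)
  obtain ⟨n, hn⟩ := this
  have hu' : u ∈ (chain N₀ n).P := hn u ⟨⟨m, hm⟩, rfl⟩
  set M := mid (chain N₀ n) with hM
  set j := Classical.choose (exists_starData (mid (chain N₀ n))) with hj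
  have hjs : StarData M j := Classical.choose_spec (exists_starData M)
  have h0 := empty_PI M 0
  have hmem : j (0, ∅, u) ∈ (chain N₀ (n + 1)).P :=
    Or.inr ⟨(0, ∅, u), ⟨h0, mid_P _ hu', by simp⟩, rfl⟩
  have hc : (j (0, ∅, u)).1 = u.1 := by
    rw [hjs.col]; simp
  exact hjs.fresh _ (mid_P _ (hn _ ⟨⟨_, hmem⟩, hc⟩))

end

end Pool.Agent.W454.Prim
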