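import Mathlib

/-!
Strong shift equivalence over the reals and nonsingular parts: if an invertible real matrix `B` is
strong shift equivalent over the reals to `C`, then `C` is similar to the direct sum of `B` and a
nilpotent matrix.
-/

set_option autoImplicit false

namespace Pool.Agent.W454.Nonsing

open Matrix

/-- `X` contains `B` as a direct summand, with nilpotent complement. -/
def Has {k : ℕ} (B : Matrix (Fin k) (Fin k) ℝ) (X : Σ d : ℕ, Matrix (Fin d) (Fin d) ℝ) : Prop :=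
  ∃ (F : Matrix (Fin k) (Fin X.1) ℝ) (G : Matrix (Fin X.1) (Fin k) ℝ) (m : ℕ),
    F * G = 1 ∧ F * X.2 = B * F ∧ X.2 * G = G * B ∧ X.2 ^ m * (1 - G * F) = 0

theorem has_self {k : ℕ} (B : Matrix (Fin k) (Fin k) ℝ) : Has B ⟨k, B⟩ :=
  ⟨1, 1, 0, by simp, by simp, by simp, by simp⟩

theorem pow_succ_swap {a b : ℕ} (R : Matrix (Fin a) (Fin b) ℝ) (T : Matrix (Fin b) (Fin a) ℝ)
    (m : ℕ) : (T * R) ^ (m + 1) = T * (R * T) ^ m * R := by
  induction m with
  | zero => simp
  | succ m ih =>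
    rw [pow_succ, ih, pow_succ (R * T) m]
    simp only [Matrix.mul_assoc]

theorem has_step {k : ℕ} {B : Matrix (Fin k) (Fin k) ℝ} (hB : B.det ≠ 0)
    {X Y : Σ d : ℕ, Matrix (Fin d) (Fin d) ℝ} (hX : Has B X)
    (h : ∃ (R : Matrix (Fin X.1) (Fin Y.1) ℝ) (T : Matrix (Fin Y.1) (Fin X.1) ℝ),
      X.2 = R * T ∧ Y.2 = T * R) : Has B Y := by
  obtain ⟨F, G, m, h1, h2, h3, h4⟩ := hX
  obtain ⟨R, T, h5, h6⟩ := h
  have hu : IsUnit B.det := isUnit_iff_ne_zero.2 hB
  have b1 : B⁻¹ * B = 1 := nonsing_inv_mul B hu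
  have b2 : B * B⁻¹ = 1 := mul_nonsing_inv B hu
  refine ⟨B⁻¹ * F * R, T * G, m + 1, ?_, ?_, ?_, ?_⟩
  · calc B⁻¹ * F * R * (T * G) = B⁻¹ * (F * (R * T)) * G := by simp only [Matrix.mul_assoc]
      _ = B⁻¹ * (F * X.2) * G := by rw [← h5]
      _ = B⁻¹ * B * (F * G) := by rw [h2]; simp only [Matrix.mul_assoc]
      _ = 1 := by rw [b1, h1, Matrix.mul_one]
  · calc B⁻¹ * F * R * Y.2 = B⁻¹ * (F * (R * T)) * R := by rw [h6]; simp only [Matrix.mul_assoc]
      _ = B⁻¹ * (F * X.2) * R := by rw [← h5]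
      _ = (B⁻¹ * B) * (F * R) := by rw [h2]; simp only [Matrix.mul_assoc]
      _ = (B * B⁻¹) * (F * R) := by rw [b1, b2]
      _ = B * (B⁻¹ * F * R) := by simp only [Matrix.mul_assoc]
  · calc Y.2 * (T * G) = T * (R * T) * G := by rw [h6]; simp only [Matrix.mul_assoc]
      _ = T * (X.2 * G) := by rw [← h5]; simp only [Matrix.mul_assoc]
      _ = T * G * B := by rw [h3]; simp only [Matrix.mul_assoc]
  · have e : R * (1 - T * G * (B⁻¹ * F * R)) = (1 - G * F) * R := by
      calc R * (1 - T * G * (B⁻¹ * F * R))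
          = R - (R * T) * G * B⁻¹ * F * R := by
            rw [Matrix.mul_sub]; simp only [Matrix.mul_assoc, Matrix.mul_one]
        _ = R - (X.2 * G) * B⁻¹ * F * R := by rw [← h5]
        _ = R - G * (B * B⁻¹) * F * R := by rw [h3]; simp only [Matrix.mul_assoc]
        _ = (1 - G * F) * R := by
            rw [b2, Matrix.sub_mul]; simp only [Matrix.mul_one, Matrix.one_mul]
    rw [h6, pow_succ_swap, Matrix.mul_assoc, e, ← h5, Matrix.mul_assoc, ← Matrix.mul_assoc (X.2 ^ m),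
      h4]
    simp

theorem has_chain {k : ℕ} {B : Matrix (Fin k) (Fin k) ℝ} (hB : B.det ≠ 0)
    {Y : Σ d : ℕ, Matrix (Fin d) (Fin d) ℝ}
    (h : Relation.ReflTransGen
          (fun X Y : (Σ d : ℕ, Matrix (Fin d) (Fin d) ℝ) =>
            ∃ (R : Matrix (Fin X.1) (Fin Y.1) ℝ) (T : Matrix (Fin Y.1) (Fin X.1) ℝ),
              X.2 = R * T ∧ Y.2 = T * R) ⟨k, B⟩ Y) : Has B Y := by
  induction h with
  | refl => exact has_self B
  | tail _ h ih => exact has_step hB ih h

/-- Complement of a split injection. -/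
theorem exists_compl {k p : ℕ} (F : Matrix (Fin k) (Fin p) ℝ) (G : Matrix (Fin p) (Fin k) ℝ)
    (h : F * G = 1) : ∃ (q : ℕ) (_ : p = k + q) (K : Matrix (Fin q) (Fin p) ℝ)
      (H : Matrix (Fin p) (Fin q) ℝ), F * H = 0 ∧ K * G = 0 ∧ K * H = 1 ∧ G * F + H * K = 1 := by
  set V := LinearMap.ker F.mulVecLin with hV
  have hsurj : Function.Surjective F.mulVecLin := by
    intro y
    refine ⟨G.mulVec y, ?_⟩
    rw [Matrix.mulVecLin_apply, Matrix.mulVec_mulVec, h, Matrix.one_mulVec]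
  have hrank := LinearMap.finrank_range_add_finrank_ker F.mulVecLin
  rw [LinearMap.range_eq_top.2 hsurj, finrank_top, Module.finrank_fin_fun,
    Module.finrank_fin_fun] at hrank
  set q := Module.finrank ℝ V with hq
  let b : Module.Basis (Fin q) ℝ V := Module.finBasisOfFinrankEq ℝ V rfl
  let κ₀ : (Fin p → ℝ) →ₗ[ℝ] V := LinearMap.codRestrict V
    (LinearMap.id - (G * F).mulVecLin) (by
      intro x
      rw [hV, LinearMap.mem_ker, Matrix.mulVecLin_apply]
      simp only [LinearMap.sub_apply, LinearMap.id_apply, Matrix.mulVecLin_apply]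
      rw [Matrix.mulVec_sub, Matrix.mulVec_mulVec, ← Matrix.mul_assoc, h, Matrix.one_mul, sub_self])
  let κ : (Fin p → ℝ) →ₗ[ℝ] (Fin q → ℝ) := b.equivFun.toLinearMap ∘ₗ κ₀
  let K : Matrix (Fin q) (Fin p) ℝ := LinearMap.toMatrix' κ
  let H : Matrix (Fin p) (Fin q) ℝ := Matrix.of fun i j => ((b j : V) : Fin p → ℝ) i
  have hK : ∀ x, K.mulVec x = κ x := fun x => LinearMap.toMatrix'_mulVec κ x
  have hH : ∀ y : Fin q → ℝ, H.mulVec y = ((b.equivFun.symm y : V) : Fin p → ℝ) := by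
    intro y
    rw [Module.Basis.equivFun_symm_apply]
    funext i
    simp [Matrix.mulVec, dotProduct, H, mul_comm]
  have hκ : ∀ x, κ x = b.equivFun (κ₀ x) := fun x => rfl
  have hκ₀ : ∀ x, ((κ₀ x : V) : Fin p → ℝ) = x - (G * F).mulVec x := fun x => rfl
  have hmem : ∀ v : V, F.mulVec (v : Fin p → ℝ) = 0 := fun v => LinearMap.mem_ker.1 v.2
  refine ⟨q, hrank.symm, K, H, ?_, ?_, ?_, ?_⟩
  · apply Matrix.toLin'.injective
    apply LinearMap.ext
    intro y
    rw [Matrix.toLin'_apply, ← Matrix.mulVec_mulVec, hH]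
    rw [hmem]
    simp
  · apply Matrix.toLin'.injective
    apply LinearMap.ext
    intro y
    rw [Matrix.toLin'_apply, ← Matrix.mulVec_mulVec, hK, hκ]
    have : κ₀ (G.mulVec y) = 0 := by
      apply Subtype.ext
      rw [hκ₀, Matrix.mulVec_mulVec, Matrix.mul_assoc, h, Matrix.mul_one, sub_self]
      rfl
    rw [this]
    simp
  · apply Matrix.toLin'.injective
    apply LinearMap.ext
    intro y
    rw [Matrix.toLin'_apply, ← Matrix.mulVec_mulVec, hK, hκ, hH]
    have : κ₀ ((b.equivFun.symm y : V) : Fin p → ℝ) = b.equivFun.symm y := by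
      apply Subtype.ext
      rw [hκ₀]
      rw [← Matrix.mulVec_mulVec, hmem]
      simp
    rw [this, LinearEquiv.apply_symm_apply]
    simp
  · apply Matrix.toLin'.injective
    apply LinearMap.ext
    intro x
    rw [map_add, LinearMap.add_apply, Matrix.toLin'_apply, Matrix.toLin'_apply,
      ← Matrix.mulVec_mulVec _ H K, hK, hκ, hH, LinearEquiv.symm_apply_apply, hκ₀]
    simp

theorem final {k p : ℕ} {B : Matrix (Fin k) (Fin k) ℝ} {C : Matrix (Fin p) (Fin p) ℝ}
    (h : Has B ⟨p, C⟩) (hC : ∀ i j, 0 ≤ C i j)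
    (hprim : ∃ m : ℕ, 0 < m ∧ ∀ i j, 0 < (C ^ m) i j) :
    ∃ (p : ℕ) (N : Matrix (Fin p) (Fin p) ℝ)
      (A : Matrix (Fin k ⊕ Fin p) (Fin k ⊕ Fin p) ℝ)
      (P Q : Matrix (Fin k ⊕ Fin p) (Fin k ⊕ Fin p) ℝ),
      IsNilpotent N ∧ (∀ i j, 0 ≤ A i j) ∧
      (∃ m : ℕ, 0 < m ∧ ∀ i j, 0 < (A ^ m) i j) ∧
      P * Q = 1 ∧ P * A * Q = Matrix.fromBlocks B 0 0 N := by
  obtain ⟨F, G, m, h1, h2, h3, h4⟩ := h
  change F * C = B * F at h2
  change C * G = G * B at h3
  change C ^ m * (1 - G * F) = 0 at h4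
  obtain ⟨q, hq, K, H, g1, g2, g3, g4⟩ := exists_compl F G h1
  subst hq
  let σ : Fin k ⊕ Fin q ≃ Fin (k + q) := finSumFinEquiv
  refine ⟨q, K * C * H, C.submatrix σ σ, (Matrix.fromRows F K).submatrix id σ,
    (Matrix.fromCols G H).submatrix σ id, ?_, ?_, ?_, ?_, ?_⟩
  · -- nilpotent
    have hKC : ∀ n : ℕ, (K * C * H) ^ n = K * C ^ n * H := by
      intro n
      induction n with
      | zero => simp [g3]
      | succ n ih =>
        rw [pow_succ, ih, pow_succ C]
        have e : H * K = 1 - G * F := by rw [← g4]; abel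
        calc K * C ^ n * H * (K * C * H) = K * C ^ n * (H * K) * C * H := by
              simp only [Matrix.mul_assoc]
          _ = K * C ^ n * C * H - K * C ^ n * G * (F * C * H) := by
              rw [e]
              simp only [Matrix.mul_sub, Matrix.sub_mul, Matrix.mul_one, Matrix.mul_assoc]
          _ = K * (C ^ n * C) * H := by
              rw [h2, Matrix.mul_assoc B, g1]
              simp [Matrix.mul_assoc]
    refine ⟨m, ?_⟩
    rw [hKC]
    have : C ^ m * H = 0 := by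
      have e : H = (1 - G * F) * H := by
        rw [Matrix.sub_mul, Matrix.mul_assoc, g1]
        simp
      rw [e, ← Matrix.mul_assoc, h4, Matrix.zero_mul]
    rw [Matrix.mul_assoc, this, Matrix.mul_zero]
  · intro i j
    exact hC _ _
  · obtain ⟨n, hn, hpos⟩ := hprim
    refine ⟨n, hn, fun i j => ?_⟩
    have : (C.submatrix σ σ) ^ n = (C ^ n).submatrix σ σ := by
      clear hpos hn
      induction n with
      | zero => simp
      | succ n ih => rw [pow_succ, ih, pow_succ, Matrix.submatrix_mul_equiv]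
    rw [this]
    exact hpos _ _
  · rw [Matrix.submatrix_mul_equiv, Matrix.fromRows_mul_fromCols, h1, g1, g2, g3,
      Matrix.fromBlocks_one]
    simp
  · rw [Matrix.submatrix_mul_equiv, Matrix.submatrix_mul_equiv, Matrix.fromRows_mul,
      Matrix.fromRows_mul_fromCols]
    have e1 : F * C * G = B := by rw [h2, Matrix.mul_assoc, h1, Matrix.mul_one]
    have e2 : F * C * H = 0 := by rw [h2, Matrix.mul_assoc, g1, Matrix.mul_zero]
    have e3 : K * C * G = 0 := by rw [Matrix.mul_assoc, h3, ← Matrix.mul_assoc, g2, Matrix.zero_mul]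
    rw [e1, e2, e3]
    simp

end Pool.Agent.W454.Nonsing
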