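import Mathlib

/-!
Finite partial three-coloured nets (partial Latin squares written as sets of points with three
colours and cells), their closed partial isomorphisms, the step that completes all undefined pairs,
and the step that glues a copy of the whole net along every closed partial isomorphism.
-/

set_option autoImplicit false

namespace Pool.Agent.W454.Prim

/-- Points: a colour and a number. -/
abbrev U := ZMod 3 × ℕ

/-- A finite partial net. Cells are written with cyclically increasing colours. -/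
structure Net where
  P : Set U
  fin : P.Finite
  cell : U → U → U → Prop
  mem : ∀ {x y z}, cell x y z → x ∈ P
  col : ∀ {x y z}, cell x y z → y.1 = x.1 + 1
  rot : ∀ {x y z}, cell x y z → cell y z x
  uniq : ∀ {x y z z'}, cell x y z → cell x y z' → z = z'

namespace Net

variable (N : Net)

theorem mem2 {x y z : U} (h : N.cell x y z) : y ∈ N.P := N.mem (N.rot h)
theorem mem3 {x y z : U} (h : N.cell x y z) : z ∈ N.P := N.mem (N.rot (N.rot h))

end Net

/-- A closed partial isomorphism with colour shift `s`. -/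
structure PI (N : Net) (s : ZMod 3) (f : Set (U × U)) : Prop where
  dom : ∀ {x x'}, (x, x') ∈ f → x ∈ N.P
  rng : ∀ {x x'}, (x, x') ∈ f → x' ∈ N.P
  func : ∀ {x y y'}, (x, y) ∈ f → (x, y') ∈ f → y = y'
  inj : ∀ {x x' y}, (x, y) ∈ f → (x', y) ∈ f → x = x'
  col : ∀ {x x'}, (x, x') ∈ f → x'.1 = x.1 + s
  fwd : ∀ {x y z x' y'}, (x, x') ∈ f → (y, y') ∈ f → N.cell x y z →
    ∃ z', (z, z') ∈ f ∧ N.cell x' y' z'
  bwd : ∀ {x y x' y' z'}, (x, x') ∈ f → (y, y') ∈ f → N.cell x' y' z' →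
    ∃ z, (z, z') ∈ f ∧ N.cell x y z

/-- The inverse relation. -/
def flip (f : Set (U × U)) : Set (U × U) := {p | (p.2, p.1) ∈ f}

@[simp] theorem mem_flip {f : Set (U × U)} {x y : U} : (x, y) ∈ flip f ↔ (y, x) ∈ f := Iff.rfl

theorem flip_flip (f : Set (U × U)) : flip (flip f) = f := rfl

theorem PI.symm {N : Net} {s : ZMod 3} {f : Set (U × U)} (h : PI N s f) : PI N (-s) (flip f) where
  dom := fun hx => h.rng hx
  rng := fun hx => h.dom hx
  func := fun h1 h2 => h.inj h1 h2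
  inj := fun h1 h2 => h.func h1 h2
  col := fun hx => by rw [h.col hx]; ring
  fwd := fun h1 h2 hc => by
    obtain ⟨z, hz, hc'⟩ := h.bwd h1 h2 hc
    exact ⟨z, hz, hc'⟩
  bwd := fun h1 h2 hc => by
    obtain ⟨z, hz, hc'⟩ := h.fwd h1 h2 hc
    exact ⟨z, hz, hc'⟩

/-- Fresh points with prescribed colours. -/
theorem exists_fresh {α : Type*} (Y : Set α) (hY : Y.Finite) (c : α → ZMod 3) (P : Set U)
    (hP : P.Finite) : ∃ j : α → U, Set.InjOn j Y ∧ (∀ y, (j y).1 = c y) ∧ ∀ y, j y ∉ P := by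
  obtain ⟨e, he⟩ := Set.countable_iff_exists_injOn.1 hY.countable
  have hb : BddAbove (Prod.snd '' P) := (hP.image _).bddAbove
  obtain ⟨M, hM⟩ := hb
  refine ⟨fun y => (c y, M + 1 + e y), ?_, fun y => rfl, ?_⟩
  · intro a ha b hb h
    have h2 : M + 1 + e a = M + 1 + e b := congrArg Prod.snd h
    exact he ha hb (by omega)
  · intro y hy
    have : M + 1 + e y ≤ M := hM ⟨_, hy, rfl⟩
    omega

/-! ### The completion step -/

/-- Pairs of points of cyclically increasing colours that lie in no cell. -/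
def undef (N : Net) : Set (U × U) :=
  {p | p.1 ∈ N.P ∧ p.2 ∈ N.P ∧ p.2.1 = p.1.1 + 1 ∧ ∀ z, ¬ N.cell p.1 p.2 z}

/-- Data for the completion step. -/
structure PlusData (N : Net) (j : U × U → U) : Prop where
  inj : Set.InjOn j (undef N)
  col : ∀ p, (j p).1 = p.2.1 + 1
  fresh : ∀ p, j p ∉ N.P

theorem exists_plusData (N : Net) : ∃ j, PlusData N j := by
  have hfin : (undef N).Finite := by
    refine (N.fin.prod N.fin).subset ?_
    intro p hp
    exact ⟨hp.1, hp.2.1⟩
  obtain ⟨j, h1, h2, h3⟩ := exists_fresh (undef N) hfin (fun p => p.2.1 + 1) N.P N.fin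
  exact ⟨j, h1, h2, h3⟩

section plus

variable {N : Net} {j : U × U → U} (hj : PlusData N j)

/-- A new cell. -/
def NC (N : Net) (j : U × U → U) (x y z : U) : Prop := (x, y) ∈ undef N ∧ z = j (x, y)

theorem three_add (a : ZMod 3) : a + 1 + 1 + 1 = a := by
  revert a; decide

/-- The net in which all undefined pairs are completed. -/
def plus (hj : PlusData N j) : Net where
  P := N.P ∪ j '' undef N
  fin := by
    refine N.fin.union (Set.Finite.image _ ?_)
    refine (N.fin.prod N.fin).subset ?_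
    intro p hp
    exact ⟨hp.1, hp.2.1⟩
  cell := fun x y z => N.cell x y z ∨ NC N j x y z ∨ NC N j y z x ∨ NC N j z x y
  mem := by
    rintro x y z (h | h | h | h)
    · exact Or.inl (N.mem h)
    · exact Or.inl h.1.1
    · exact Or.inr ⟨_, h.1, h.2.symm⟩
    · exact Or.inl h.1.2.1
  col := by
    rintro x y z (h | h | h | h)
    · exact N.col h
    · exact h.1.2.2.1
    · have h1 : z.1 = y.1 + 1 := h.1.2.2.1
      have h2 : x.1 = z.1 + 1 := by rw [h.2, hj.col]
      rw [h2, h1, three_add]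
    · have h1 : x.1 = z.1 + 1 := h.1.2.2.1
      rw [h.2, hj.col]
  rot := by
    rintro x y z (h | h | h | h)
    · exact Or.inl (N.rot h)
    · exact Or.inr (Or.inr (Or.inr h))
    · exact Or.inr (Or.inl h)
    · exact Or.inr (Or.inr (Or.inl h))
  uniq := by
    rintro x y z z' (h | h | h | h) (k | k | k | k)
    · exact N.uniq h k
    · exact absurd h (k.1.2.2.2 _)
    · exact absurd (N.mem h) (k.2 ▸ hj.fresh _)
    · exact absurd (N.mem2 h) (k.2 ▸ hj.fresh _)
    · exact absurd k (h.1.2.2.2 _)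
    · rw [h.2, k.2]
    · exact absurd h.1.1 (k.2 ▸ hj.fresh _)
    · exact absurd h.1.2.1 (k.2 ▸ hj.fresh _)
    · exact absurd (N.mem k) (h.2 ▸ hj.fresh _)
    · exact absurd k.1.1 (h.2 ▸ hj.fresh _)
    · have := hj.inj h.1 k.1 (h.2.symm.trans k.2)
      exact congrArg Prod.snd this
    · exact absurd h.1.1 (k.2 ▸ hj.fresh _)
    · exact absurd (N.mem2 k) (h.2 ▸ hj.fresh _)
    · exact absurd k.1.2.1 (h.2 ▸ hj.fresh _)
    · exact absurd k.1.1 (h.2 ▸ hj.fresh _)
    · have := hj.inj h.1 k.1 (h.2.symm.trans k.2)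
      exact congrArg Prod.fst this

/-- Extension of a closed partial isomorphism to the completed net. -/
def plusRel (N : Net) (j : U × U → U) (f : Set (U × U)) : Set (U × U) :=
  {p | p ∈ f ∨ ∃ a b a' b', (a, a') ∈ f ∧ (b, b') ∈ f ∧ (a, b) ∈ undef N ∧ (a', b') ∈ undef N ∧
    p.1 = j (a, b) ∧ p.2 = j (a', b')}

theorem plusRel_flip (f : Set (U × U)) : plusRel N j (flip f) = flip (plusRel N j f) := by
  ext ⟨x, y⟩
  simp only [plusRel, flip, Set.mem_ofPred_eq]
  constructor
  · rintro (h | ⟨a, b, a', b', h1, h2, h3, h4, h5, h6⟩)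
    · exact Or.inl h
    · exact Or.inr ⟨a', b', a, b, h1, h2, h4, h3, h6, h5⟩
  · rintro (h | ⟨a, b, a', b', h1, h2, h3, h4, h5, h6⟩)
    · exact Or.inl h
    · exact Or.inr ⟨a', b', a, b, h1, h2, h4, h3, h6, h5⟩

theorem plus_func {s : ZMod 3} {f : Set (U × U)} (hj : PlusData N j) (h : PI N s f) {x y y' : U}
    (h1 : (x, y) ∈ plusRel N j f) (h2 : (x, y') ∈ plusRel N j f) : y = y' := by
  rcases h1 with h1 | ⟨a, b, a', b', h1, h2', h3, h4, h5, h6⟩ <;>
  rcases h2 with k1 | ⟨c, d, c', d', k1, k2, k3, k4, k5, k6⟩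
  · exact h.func h1 k1
  · exact absurd (h.dom h1) ((show x = j (c, d) from k5) ▸ hj.fresh _)
  · exact absurd (h.dom k1) ((show x = j (a, b) from h5) ▸ hj.fresh _)
  · have e := hj.inj h3 k3 (h5.symm.trans k5)
    have e1 : a = c := congrArg Prod.fst e
    have e2 : b = d := congrArg Prod.snd e
    subst e1 e2
    have e3 := h.func h1 k1
    have e4 := h.func h2' k2
    subst e3 e4
    exact h6.trans k6.symm

theorem undef_map {s : ZMod 3} {f : Set (U × U)} (h : PI N s f) {x y x' y' : U}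
    (hx : (x, x') ∈ f) (hy : (y, y') ∈ f) (hu : (x, y) ∈ undef N) : (x', y') ∈ undef N := by
  refine ⟨h.rng hx, h.rng hy, ?_, ?_⟩
  · have e : y.1 = x.1 + 1 := hu.2.2.1
    change y'.1 = x'.1 + 1
    rw [h.col hx, h.col hy, e]; ring
  · intro z hz
    obtain ⟨w, _, hw⟩ := h.bwd hx hy hz
    exact hu.2.2.2 w hw

theorem plus_fwd {s : ZMod 3} {f : Set (U × U)} (hj : PlusData N j) (h : PI N s f)
    {x y z x' y' : U} (hx : (x, x') ∈ plusRel N j f) (hy : (y, y') ∈ plusRel N j f)
    (hc : (plus hj).cell x y z) :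
    ∃ z', (z, z') ∈ plusRel N j f ∧ (plus hj).cell x' y' z' := by
  have old : ∀ {u u' : U}, (u, u') ∈ plusRel N j f → u ∈ N.P → (u, u') ∈ f := by
    rintro u u' (hu | ⟨a, b, a', b', _, _, _, _, h5, _⟩) hP
    · exact hu
    · exact absurd hP ((show u = j (a, b) from h5) ▸ hj.fresh _)
  have new : ∀ {u u' p q : U}, (u, u') ∈ plusRel N j f → (p, q) ∈ undef N → u = j (p, q) →
      ∃ p' q', (p, p') ∈ f ∧ (q, q') ∈ f ∧ (p', q') ∈ undef N ∧ u' = j (p', q') := by
    rintro u u' p q (hu | ⟨a, b, a', b', h1, h2, h3, h4, h5, h6⟩) hpq e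
    · exact absurd (h.dom hu) (e ▸ hj.fresh _)
    · have e' := hj.inj h3 hpq (h5.symm.trans e)
      have e1 : a = p := congrArg Prod.fst e'
      have e2 : b = q := congrArg Prod.snd e'
      subst e1 e2
      exact ⟨a', b', h1, h2, h4, h6⟩
  rcases hc with hc | hc | hc | hc
  · obtain ⟨z', hz, hc'⟩ := h.fwd (old hx (N.mem hc)) (old hy (N.mem2 hc)) hc
    exact ⟨z', Or.inl hz, Or.inl hc'⟩
  · have hx' := old hx hc.1.1
    have hy' := old hy hc.1.2.1
    have hu := undef_map h hx' hy' hc.1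
    exact ⟨j (x', y'), Or.inr ⟨x, y, x', y', hx', hy', hc.1, hu, hc.2, rfl⟩,
      Or.inr (Or.inl ⟨hu, rfl⟩)⟩
  · obtain ⟨p', q', h1, h2, h3, h4⟩ := new hx hc.1 hc.2
    have hy' := old hy hc.1.1
    have e := h.func h1 hy'
    subst e
    exact ⟨q', Or.inl h2, Or.inr (Or.inr (Or.inl ⟨h3, h4⟩))⟩
  · obtain ⟨p', q', h1, h2, h3, h4⟩ := new hy hc.1 hc.2
    have hx' := old hx hc.1.2.1
    have e := h.func h2 hx'
    subst e
    exact ⟨p', Or.inl h1, Or.inr (Or.inr (Or.inr ⟨h3, h4⟩))⟩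

theorem plus_PI {s : ZMod 3} {f : Set (U × U)} (hj : PlusData N j) (h : PI N s f) :
    PI (plus hj) s (plusRel N j f) where
  dom := by
    rintro x x' (hx | ⟨a, b, a', b', h1, h2, h3, h4, h5, h6⟩)
    · exact Or.inl (h.dom hx)
    · exact Or.inr ⟨_, h3, h5.symm⟩
  rng := by
    rintro x x' (hx | ⟨a, b, a', b', h1, h2, h3, h4, h5, h6⟩)
    · exact Or.inl (h.rng hx)
    · exact Or.inr ⟨_, h4, h6.symm⟩
  func := fun h1 h2 => plus_func hj h h1 h2
  inj := by
    intro x x' y h1 h2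
    have h1' : (y, x) ∈ plusRel N j (flip f) := by rw [plusRel_flip]; exact h1
    have h2' : (y, x') ∈ plusRel N j (flip f) := by rw [plusRel_flip]; exact h2
    exact plus_func hj h.symm h1' h2'
  col := by
    rintro x x' (hx | ⟨a, b, a', b', h1, h2, h3, h4, h5, h6⟩)
    · exact h.col hx
    · change x = _ at h5
      change x' = _ at h6
      rw [h5, h6, hj.col, hj.col]
      change b'.1 + 1 = b.1 + 1 + s
      rw [h.col h2]; ring
  fwd := fun hx hy hc => plus_fwd hj h hx hy hc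
  bwd := by
    intro x y x' y' z' hx hy hc
    have hx' : (x', x) ∈ plusRel N j (flip f) := by rw [plusRel_flip]; exact hx
    have hy' : (y', y) ∈ plusRel N j (flip f) := by rw [plusRel_flip]; exact hy
    obtain ⟨z, hz, hc'⟩ := plus_fwd hj h.symm hx' hy' hc
    rw [plusRel_flip] at hz
    exact ⟨z, hz, hc'⟩

theorem plus_complete (hj : PlusData N j) {x y : U} (hx : x ∈ N.P) (hy : y ∈ N.P)
    (hc : y.1 = x.1 + 1) : ∃ z, (plus hj).cell x y z := by
  by_cases h : ∃ z, N.cell x y z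
  · obtain ⟨z, hz⟩ := h
    exact ⟨z, Or.inl hz⟩
  · push Not at h
    exact ⟨j (x, y), Or.inr (Or.inl ⟨⟨hx, hy, hc, h⟩, rfl⟩)⟩

end plus

/-! ### The gluing step -/

/-- The missing points of the copies: a copy of the net is glued along every closed partial
isomorphism. -/
def missing (N : Net) : Set (ZMod 3 × Set (U × U) × U) :=
  {q | PI N q.1 q.2.1 ∧ q.2.2 ∈ N.P ∧ ∀ x', (q.2.2, x') ∉ q.2.1}

theorem missing_finite (N : Net) : (missing N).Finite := by
  have h1 : {f : Set (U × U) | f ⊆ N.P ×ˢ N.P}.Finite := (N.fin.prod N.fin).finite_subsets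
  have h2 : ((Set.univ : Set (ZMod 3)) ×ˢ ({f : Set (U × U) | f ⊆ N.P ×ˢ N.P} ×ˢ N.P)).Finite :=
    Set.finite_univ.prod (h1.prod N.fin)
  refine h2.subset ?_
  rintro ⟨s, f, x⟩ ⟨h, hx, _⟩
  refine ⟨Set.mem_univ _, ?_, hx⟩
  rintro ⟨a, b⟩ hab
  exact ⟨h.dom hab, h.rng hab⟩

/-- Data for the gluing step. -/
structure StarData (N : Net) (j : ZMod 3 × Set (U × U) × U → U) : Prop where
  inj : Set.InjOn j (missing N)
  col : ∀ q, (j q).1 = q.2.2.1 + q.1
  fresh : ∀ q, j q ∉ N.P

theorem exists_starData (N : Net) : ∃ j, StarData N j := by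
  obtain ⟨j, h1, h2, h3⟩ := exists_fresh (missing N) (missing_finite N)
    (fun q => q.2.2.1 + q.1) N.P N.fin
  exact ⟨j, h1, h2, h3⟩

section star

variable {N : Net} {j : ZMod 3 × Set (U × U) × U → U}

/-- The chart of the copy that is glued along `f`. -/
def ch (N : Net) (j : ZMod 3 × Set (U × U) × U → U) (s : ZMod 3) (f : Set (U × U)) :
    Set (U × U) :=
  {p | p ∈ f ∨ (p.1 ∈ N.P ∧ (∀ y, (p.1, y) ∉ f) ∧ p.2 = j (s, f, p.1))}

theorem ch_sub {s : ZMod 3} {f : Set (U × U)} : f ⊆ ch N j s f := fun _ h => Or.inl h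

theorem ch_total {s : ZMod 3} {f : Set (U × U)} {x : U} (hx : x ∈ N.P) :
    ∃ u, (x, u) ∈ ch N j s f := by
  by_cases h : ∃ y, (x, y) ∈ f
  · obtain ⟨y, hy⟩ := h
    exact ⟨y, Or.inl hy⟩
  · push Not at h
    exact ⟨j (s, f, x), Or.inr ⟨hx, h, rfl⟩⟩

theorem ch_dom {s : ZMod 3} {f : Set (U × U)} (h : PI N s f) {x u : U}
    (hx : (x, u) ∈ ch N j s f) : x ∈ N.P := by
  rcases hx with hx | hx
  · exact h.dom hx
  · exact hx.1

theorem ch_old (hj : StarData N j) {s : ZMod 3} {f : Set (U × U)} {x u : U}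
    (hx : (x, u) ∈ ch N j s f) (hu : u ∈ N.P) : (x, u) ∈ f := by
  rcases hx with hx | hx
  · exact hx
  · exact absurd hu ((show u = j (s, f, x) from hx.2.2) ▸ hj.fresh _)

theorem ch_new (_hj : StarData N j) {s : ZMod 3} {f : Set (U × U)} (h : PI N s f) {x u : U}
    (hx : (x, u) ∈ ch N j s f) (hu : u ∉ N.P) :
    (s, f, x) ∈ missing N ∧ u = j (s, f, x) := by
  rcases hx with hx | hx
  · exact absurd (h.rng hx) hu
  · exact ⟨⟨h, hx.1, hx.2.1⟩, hx.2.2⟩

theorem ch_func {s : ZMod 3} {f : Set (U × U)} (h : PI N s f) {x u u' : U}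
    (hx : (x, u) ∈ ch N j s f) (hx' : (x, u') ∈ ch N j s f) : u = u' := by
  rcases hx with hx | hx <;> rcases hx' with hx' | hx'
  · exact h.func hx hx'
  · exact absurd hx (hx'.2.1 _)
  · exact absurd hx' (hx.2.1 _)
  · exact (show u = j (s, f, x) from hx.2.2).trans (show u' = j (s, f, x) from hx'.2.2).symm

theorem ch_inj (hj : StarData N j) {s : ZMod 3} {f : Set (U × U)} (h : PI N s f) {x x' u : U}
    (hx : (x, u) ∈ ch N j s f) (hx' : (x', u) ∈ ch N j s f) : x = x' := by
  by_cases hu : u ∈ N.P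
  · exact h.inj (ch_old hj hx hu) (ch_old hj hx' hu)
  · obtain ⟨h1, h2⟩ := ch_new hj h hx hu
    obtain ⟨h3, h4⟩ := ch_new hj h hx' hu
    have e := hj.inj h1 h3 (h2.symm.trans h4)
    exact congrArg (fun q => q.2.2) e

theorem ch_col (hj : StarData N j) {s : ZMod 3} {f : Set (U × U)} (h : PI N s f) {x u : U}
    (hx : (x, u) ∈ ch N j s f) : u.1 = x.1 + s := by
  rcases hx with hx | hx
  · exact h.col hx
  · rw [show u = j (s, f, x) from hx.2.2, hj.col]

/-- Two charts that meet outside of the old points are equal. -/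
theorem ch_same (hj : StarData N j) {s s' : ZMod 3} {f f' : Set (U × U)} (h : PI N s f)
    (h' : PI N s' f') {x x' u : U} (hx : (x, u) ∈ ch N j s f) (hx' : (x', u) ∈ ch N j s' f')
    (hu : u ∉ N.P) : s = s' ∧ f = f' ∧ x = x' := by
  obtain ⟨h1, h2⟩ := ch_new hj h hx hu
  obtain ⟨h3, h4⟩ := ch_new hj h' hx' hu
  have e := hj.inj h1 h3 (h2.symm.trans h4)
  exact ⟨congrArg (fun q => q.1) e, congrArg (fun q => q.2.1) e, congrArg (fun q => q.2.2) e⟩

/-- The cells of the glued net. -/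
def SC (N : Net) (j : ZMod 3 × Set (U × U) × U → U) (u v w : U) : Prop :=
  N.cell u v w ∨ ∃ s f, PI N s f ∧ ∃ x y z, N.cell x y z ∧ (x, u) ∈ ch N j s f ∧
    (y, v) ∈ ch N j s f ∧ (z, w) ∈ ch N j s f

theorem SC_closed (hj : StarData N j) {u v w : U} (h : SC N j u v w) (hu : u ∈ N.P)
    (hv : v ∈ N.P) : N.cell u v w := by
  rcases h with h | ⟨s, f, hf, x, y, z, hc, hx, hy, hz⟩
  · exact h
  · obtain ⟨t, ht, hc'⟩ := hf.fwd (ch_old hj hx hu) (ch_old hj hy hv) hc
    rw [ch_func hf hz (Or.inl ht)]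
    exact hc'

theorem SC_uniq (hj : StarData N j) {u v w w' : U} (h : SC N j u v w) (h' : SC N j u v w') :
    w = w' := by
  by_cases hu : u ∈ N.P
  · by_cases hv : v ∈ N.P
    · exact N.uniq (SC_closed hj h hu hv) (SC_closed hj h' hu hv)
    · rcases h with h | ⟨s, f, hf, x, y, z, hc, hx, hy, hz⟩
      · exact absurd (N.mem2 h) hv
      rcases h' with h' | ⟨s', f', hf', x', y', z', hc', hx', hy', hz'⟩
      · exact absurd (N.mem2 h') hv
      obtain ⟨e1, e2, e3⟩ := ch_same hj hf hf' hy hy' hv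
      subst e1 e2 e3
      have e4 := ch_inj hj hf hx hx'
      subst e4
      have e5 := N.uniq hc hc'
      subst e5
      exact ch_func hf hz hz'
  · rcases h with h | ⟨s, f, hf, x, y, z, hc, hx, hy, hz⟩
    · exact absurd (N.mem h) hu
    rcases h' with h' | ⟨s', f', hf', x', y', z', hc', hx', hy', hz'⟩
    · exact absurd (N.mem h') hu
    obtain ⟨e1, e2, e3⟩ := ch_same hj hf hf' hx hx' hu
    subst e1 e2 e3
    have e4 := ch_inj hj hf hy hy'
    subst e4
    have e5 := N.uniq hc hc'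
    subst e5
    exact ch_func hf hz hz'

/-- The net with all copies glued. -/
def star (hj : StarData N j) : Net where
  P := N.P ∪ j '' missing N
  fin := N.fin.union ((missing_finite N).image _)
  cell := SC N j
  mem := by
    rintro u v w (h | ⟨s, f, hf, x, y, z, hc, hx, hy, hz⟩)
    · exact Or.inl (N.mem h)
    · by_cases hu : u ∈ N.P
      · exact Or.inl hu
      · obtain ⟨h1, h2⟩ := ch_new hj hf hx hu
        exact Or.inr ⟨_, h1, h2.symm⟩
  col := by
    rintro u v w (h | ⟨s, f, hf, x, y, z, hc, hx, hy, hz⟩)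
    · exact N.col h
    · rw [ch_col hj hf hx, ch_col hj hf hy, N.col hc]; ring
  rot := by
    rintro u v w (h | ⟨s, f, hf, x, y, z, hc, hx, hy, hz⟩)
    · exact Or.inl (N.rot h)
    · exact Or.inr ⟨s, f, hf, y, z, x, N.rot hc, hy, hz, hx⟩
  uniq := fun h h' => SC_uniq hj h h'

theorem star_PI (hj : StarData N j) {s : ZMod 3} {f : Set (U × U)} (h : PI N s f) :
    PI (star hj) s (ch N j s f) where
  dom := fun hx => Or.inl (ch_dom h hx)
  rng := by
    intro x u hx
    by_cases hu : u ∈ N.P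
    · exact Or.inl hu
    · obtain ⟨h1, h2⟩ := ch_new hj h hx hu
      exact Or.inr ⟨_, h1, h2.symm⟩
  func := fun h1 h2 => ch_func h h1 h2
  inj := fun h1 h2 => ch_inj hj h h1 h2
  col := fun hx => ch_col hj h hx
  fwd := by
    intro x y z u v hx hy hc
    have hc' := SC_closed hj hc (ch_dom h hx) (ch_dom h hy)
    obtain ⟨w, hw⟩ := ch_total (j := j) (s := s) (f := f) (N.mem3 hc')
    exact ⟨w, hw, Or.inr ⟨s, f, h, x, y, z, hc', hx, hy, hw⟩⟩
  bwd := by
    intro x y u v w hx hy hc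
    have main : N.cell u v w → ∃ z, (z, w) ∈ ch N j s f ∧ (star hj).cell x y z := by
      intro hc'
      obtain ⟨z, hz, hc''⟩ := h.bwd (ch_old hj hx (N.mem hc')) (ch_old hj hy (N.mem2 hc')) hc'
      exact ⟨z, Or.inl hz, Or.inl hc''⟩
    by_cases hu : u ∈ N.P
    · by_cases hv : v ∈ N.P
      · exact main (SC_closed hj hc hu hv)
      · rcases hc with hc | ⟨s', f', hf', x', y', z', hc', hx', hy', hz'⟩
        · exact main hc
        obtain ⟨e1, e2, e3⟩ := ch_same hj h hf' hy hy' hv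
        subst e1 e2 e3
        have e4 := ch_inj hj h hx hx'
        subst e4
        exact ⟨z', hz', Or.inl hc'⟩
    · rcases hc with hc | ⟨s', f', hf', x', y', z', hc', hx', hy', hz'⟩
      · exact main hc
      obtain ⟨e1, e2, e3⟩ := ch_same hj h hf' hx hx' hu
      subst e1 e2 e3
      have e4 := ch_inj hj h hy hy'
      subst e4
      exact ⟨z', hz', Or.inl hc'⟩

/-- A cell that contains an old point and a new point of the copy along `f` meets the range of
`f` in the old point. -/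
theorem star_cross (hj : StarData N j) {s : ZMod 3} {f : Set (U × U)} (h : PI N s f)
    {a p q : U} (hp : p ∈ N.P) (hq : q ∉ N.P) (ha : (a, q) ∈ ch N j s f) (r : U)
    (hc : (star hj).cell p q r ∨ (star hj).cell q p r) : ∃ x, (x, p) ∈ f := by
  rcases hc with (hc | ⟨s', f', hf', x', y', z', hc', hx', hy', hz'⟩) |
    (hc | ⟨s', f', hf', x', y', z', hc', hx', hy', hz'⟩)
  · exact absurd (N.mem2 hc) hq
  · obtain ⟨e1, e2, e3⟩ := ch_same hj h hf' ha hy' hq
    subst e1 e2 e3
    exact ⟨x', ch_old hj hx' hp⟩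
  · exact absurd (N.mem hc) hq
  · obtain ⟨e1, e2, e3⟩ := ch_same hj h hf' ha hx' hq
    subst e1 e2 e3
    exact ⟨y', ch_old hj hy' hp⟩

end star

end Pool.Agent.W454.Prim
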